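import Pool.Agent.K6.H76.LF.Fin

set_option autoImplicit false

/-!
# The number of Lagrangian fibrations of a primitive symplectic torus quotient

`latt`, `IsTorusQuotient`, `IsForm`, `IsPrimitiveSymplectic`, `LineBundle` and `LineBundle.pow` are
defined in `Pool.Agent.W594.SYZ.Defs2`; `IsHermitian`, `IsChernForm`, `IsNefForm`, `IsPositiveForm`,
`IsDegenerateForm`, `IsLagrangianFibration` and `Induces` in `Pool.Agent.W594.SYZ.TQDefs`;
`fibrations`, `IsProjective` and `PicardGeThree` in `Pool.Agent.K6.H76.LF.Defs`.

The proof: let `s` be the symplectic form.  To the Chern form `H` of a line bundle belongs the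
conjugate-linear map `J` with `H x y = s x (J y)`.  The maps `J`, `J'` of two Chern forms satisfy
`J J' + J' J = b` for a real number `b`, since `s` is the only invariant `2`-form; so the Chern forms
with `q = 0` are those with `J ^ 2 = 0`, and `b` is the polar form of `q`.  If `b ≠ 0` for a nef `H`
with `q = 0` and some Chern form `K`, then the second point on the line through `H` and `K` in the
projective quadric is rational, and it is semidefinite.

Pieces: EXJ by helper29, SCA by helper50, RAT by helper33, GRP and SEM by helper66, SAM by helper63,
PRO by helper21; the rest by helper76.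
-/

namespace Pool.Agent.Results.MP_63735c_ag.NumberOfFibrations

open Pool.Agent.W594.SYZ2 Pool.Agent.K6.H76.LF

/-- Let `X = V / Γ` be a primitive symplectic variety of positive dimension that is the quotient of a
complex torus by a finite group.

* The holomorphic Lagrangian fibrations of `X` which are induced by line bundles correspond to the
  kernels of the nonzero Chern forms of the nef line bundles `L` with `q_X(L) = 0`.
* Two different ones are transversal: the tangent spaces of their fibres are complementary.
* Their number is `0`, `1`, `2` or infinite.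
* If there is one, then there is a second one if and only if `X` is projective, and there are
  infinitely many if and only if `X` is projective and has Picard number at least three. -/
theorem result (V : Type) [NormedAddCommGroup V] [NormedSpace ℂ V] [FiniteDimensional ℂ V]
    [Nontrivial V] (Γ : Subgroup (V ≃ᵃ[ℂ] V)) (hΓ : IsPrimitiveSymplectic Γ) :
    (∀ N : Submodule ℂ V, N ∈ fibrations Γ ↔ ∃ (L : LineBundle Γ) (H : V → V → ℂ),
      IsChernForm L H ∧ IsNefForm H ∧ IsDegenerateForm H ∧ (∃ v w, H v w ≠ 0) ∧
        ∀ v, v ∈ N ↔ ∀ w, H v w = 0) ∧
    (∀ N ∈ fibrations Γ, ∀ M ∈ fibrations Γ, N ≠ M → IsCompl N M) ∧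
    ((fibrations Γ).encard = 0 ∨ (fibrations Γ).encard = 1 ∨ (fibrations Γ).encard = 2 ∨
      (fibrations Γ).encard = ⊤) ∧
    ((fibrations Γ).Nonempty → ((fibrations Γ).encard ≠ 1 ↔ IsProjective Γ) ∧
      ((fibrations Γ).encard = ⊤ ↔ IsProjective Γ ∧ PicardGeThree Γ)) := main hΓ

end Pool.Agent.Results.MP_63735c_ag.NumberOfFibrations
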