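import Pool.Agent.K6.H76.SYZ.Bun

set_option autoImplicit false

/-!
# The SYZ conjecture for primitive symplectic varieties fails for a torsion line bundle

`latt`, `IsTorusQuotient`, `IsForm`, `IsPrimitiveSymplectic`, `LineBundle`, `LineBundle.pow`,
`LineBundle.IsSection` and `LineBundle.IsTrivial` are defined in `Pool.Agent.W594.SYZ.Defs2`;
`IsHermitian`, `IsChernForm`, `IsNefForm`, `IsPositiveForm`, `IsDegenerateForm`, `IsLagrangianFibration`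
and `Induces` in `Pool.Agent.W594.SYZ.TQDefs`.  The group used in the proof is
`Pool.Agent.K6.H76.SYZ.G`: all transformations `v ↦ P v + t` of `ℂ⁴ = ℂ² × ℂ²`, `v = (x, y)`, where `P` runs
through the eight signed permutations of `x` and `y`, and `t = (t₁, t₂, t₃, t₄)` with
`t₁, t₃ ∈ δ + 2 ℤ[i]`, `t₂, t₄ ∈ ℤ + 2 ℤ i`, `t₂ + t₄ ∈ δ + 2 ℤ[i]`, `δ = 0` if `det P = 1` and `δ = 1` if
`det P = -1`; the line bundle is given by the character `det P`.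
-/

namespace Pool.Agent.Results.MP_63735c_ag.TorsionLineBundle

open Pool.Agent.W594.SYZ2

universe u

/-- There are a primitive symplectic variety `X = V / Γ` of dimension `4`, the quotient of a complex
torus by the dihedral group of order `8`, and a nontrivial line bundle `L` on `X` (with `L ⊗ L` trivial)
which is nef with `q_X(L) = 0` (its Chern form is `0`) and induces no Lagrangian fibration of `X`.  The
elements of `Γ` on which `L` is nontrivial act without fixed points, so `L` is a line bundle on `X` and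
becomes trivial on a connected étale double cover of `X`.  Moreover all holomorphic sections of all
powers of `L` are constant, so no power `L ^ m`, `m ≥ 1`, is the pullback of an ample line bundle under
any surjective holomorphic map from `X` to a variety of positive dimension. -/
theorem result : ∃ (Γ : Subgroup (((ℂ × ℂ) × (ℂ × ℂ)) ≃ᵃ[ℂ] ((ℂ × ℂ) × (ℂ × ℂ)))) (L : LineBundle Γ),
    IsPrimitiveSymplectic Γ ∧
    Nat.card {A : ((ℂ × ℂ) × (ℂ × ℂ)) ≃ₗ[ℂ] ((ℂ × ℂ) × (ℂ × ℂ)) | ∃ γ ∈ Γ, γ.linear = A} = 8 ∧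
    ¬ L.IsTrivial ∧ (L.pow 2).IsTrivial ∧
    (IsChernForm L (fun _ _ => 0) ∧ IsNefForm (fun _ _ : (ℂ × ℂ) × (ℂ × ℂ) => (0 : ℂ)) ∧
      IsDegenerateForm (fun _ _ : (ℂ × ℂ) × (ℂ × ℂ) => (0 : ℂ))) ∧
    (∀ (γ : Γ) (v w : (ℂ × ℂ) × (ℂ × ℂ)), L.e γ v ≠ 1 →
      L.e γ v = -1 ∧ (γ : ((ℂ × ℂ) × (ℂ × ℂ)) ≃ᵃ[ℂ] ((ℂ × ℂ) × (ℂ × ℂ))) w ≠ w) ∧
    (∀ (m : ℕ) (s : (ℂ × ℂ) × (ℂ × ℂ) → ℂ), (L.pow m).IsSection s → ∀ v w, s v = s w) ∧
    ∀ (W : Type u) [NormedAddCommGroup W] [NormedSpace ℂ W] (Δ : Subgroup (W ≃ᵃ[ℂ] W))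
      (π : ((ℂ × ℂ) × (ℂ × ℂ)) →ₗ[ℂ] W), IsLagrangianFibration Γ Δ π → ¬ Induces L Δ π := by
  refine ⟨Pool.Agent.K6.H76.SYZ.G, Pool.Agent.K6.H76.SYZ.L,
    Pool.Agent.K6.H76.SYZ.isPrimitiveSymplectic, ?_, Pool.Agent.K6.H76.SYZ.not_trivial,
    Pool.Agent.K6.H76.SYZ.two_trivial,
    ⟨Pool.Agent.K6.H76.SYZ.chern_zero, fun _ => le_rfl, ⟨((1, 0), (0, 0)), by simp, fun _ => rfl⟩⟩,
    ?_, Pool.Agent.K6.H76.SYZ.section_const, ?_⟩
  · have e : {A : ((ℂ × ℂ) × (ℂ × ℂ)) ≃ₗ[ℂ] ((ℂ × ℂ) × (ℂ × ℂ)) |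
        ∃ γ ∈ Pool.Agent.K6.H76.SYZ.G, γ.linear = A} = Set.range Pool.Agent.K6.H76.SYZ.actL := by
      ext A
      constructor
      · rintro ⟨γ, ⟨g, t, -, h⟩, rfl⟩
        refine ⟨g, ?_⟩
        ext1 v
        exact (Pool.Agent.K6.H76.SYZ.linear_eq h v).symm
      · rintro ⟨g, rfl⟩
        refine ⟨Pool.Agent.K6.H76.SYZ.aff g _,
          Pool.Agent.K6.H76.SYZ.aff_mem (Pool.Agent.K6.H76.SYZ.exists_good g), ?_⟩
        ext1 v
        exact Pool.Agent.K6.H76.SYZ.aff_linear g _ v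
    have inj : Function.Injective Pool.Agent.K6.H76.SYZ.actL := by
      intro g h hgh
      have h1 := congrArg (fun A : ((ℂ × ℂ) × (ℂ × ℂ)) ≃ₗ[ℂ] ((ℂ × ℂ) × (ℂ × ℂ)) =>
        A ((1, 0), (0, 0))) hgh
      have h2 := congrArg (fun A : ((ℂ × ℂ) × (ℂ × ℂ)) ≃ₗ[ℂ] ((ℂ × ℂ) × (ℂ × ℂ)) =>
        A ((0, 0), (1, 0))) hgh
      obtain ⟨g1, g2, g3⟩ := g
      obtain ⟨h1', h2', h3'⟩ := h
      cases g1 <;> cases h1' <;>
        simp [Pool.Agent.K6.H76.SYZ.actL, Pool.Agent.K6.H76.SYZ.act] at h1 h2 ⊢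
      · exact ⟨Units.ext (by exact_mod_cast h1), Units.ext (by exact_mod_cast h2)⟩
      · exact ⟨Units.ext (by exact_mod_cast h2), Units.ext (by exact_mod_cast h1)⟩
    rw [e, Nat.card_coe_set_eq, ← Set.image_univ, Set.ncard_image_of_injective _ inj, Set.ncard_univ,
      Nat.card_eq_fintype_card]
    decide
  · intro γ v w h
    have h1 : Pool.Agent.K6.H76.SYZ.chi (γ : ((ℂ × ℂ) × (ℂ × ℂ)) ≃ᵃ[ℂ] ((ℂ × ℂ) × (ℂ × ℂ))) ≠ 1 := by
      intro h2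
      rw [Pool.Agent.K6.H76.SYZ.L_e, h2] at h
      simp at h
    refine ⟨?_, fun hw => h1 (Pool.Agent.K6.H76.SYZ.chi_fixed γ.2 hw)⟩
    rcases Pool.Agent.K6.H76.SYZ.chi_sq γ.2 with h2 | h2
    · exact absurd h2 h1
    · rw [Pool.Agent.K6.H76.SYZ.L_e, h2]; simp
  · intro W _ _ Δ π hf
    exact Pool.Agent.K6.H76.SYZ.not_induces Δ π hf

end Pool.Agent.Results.MP_63735c_ag.TorsionLineBundle
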