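import Pool.Agent.K6.H76.SYZ.TD5

set_option autoImplicit false

/-!
# The SYZ conjecture for torus quotients, with the torsion line bundles

`latt`, `IsTorusQuotient`, `IsForm`, `IsPrimitiveSymplectic`, `LineBundle`, `LineBundle.pow`,
`LineBundle.IsSection` and `LineBundle.IsTrivial` are defined in `Pool.Agent.W594.SYZ.Defs2`;
`IsHermitian`, `IsChernForm`, `IsNefForm`, `IsPositiveForm`, `IsDegenerateForm`, `IsLagrangianFibration`
and `Induces` in `Pool.Agent.W594.SYZ.TQDefs`; `TQ.Lin` (the group of the linear parts of `Γ`) in
`Pool.Agent.W594.SYZ.TQ3`; `orderH1`, `IsFlat`, `Iso`, `NefIsotropic`, `InducesFibration` and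
`IsTorsion` in `Pool.Agent.K6.H76.SYZ.TDSlim`.
-/

namespace Pool.Agent.Results.MP_63735c_ag.TorusQuotientsDecided

open Pool.Agent.W594.SYZ2 Pool.Agent.K6.H76.SYZ.TS

/-- Let `X = V / Γ` be a primitive symplectic variety of positive dimension that is the quotient of a
complex torus by a finite group, and let `a` be the index in `Γ` of the subgroup generated by the
commutators and the elements with a fixed point (`a` is the order of the first homology group of `X`).

* `a` is finite.
* A nef line bundle `L` with `q_X(L) = 0` induces a holomorphic Lagrangian fibration of `X` if and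
  only if it is not torsion, and it is torsion if and only if it is isomorphic to a line bundle with a
  constant factor of automorphy, which is then unique.
* All these flat line bundles are nef with `q_X = 0` and torsion.
* Exactly `a - 1` flat line bundles are nontrivial and induce no Lagrangian fibration.  So there are
  exactly `a - 1` nontrivial nef line bundles with `q_X = 0` inducing no Lagrangian fibration, up to
  isomorphism.
* The SYZ conjecture, for all nontrivial `L`, holds for `X` if and only if `a = 1`.
* `a = 1` if `X` is a surface; if the linear part of some element of `Γ` has no eigenvalue `1`, then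
  `a` divides the order of the abelianisation of the group of linear parts. -/
theorem result {V : Type*} [NormedAddCommGroup V] [NormedSpace ℂ V] [FiniteDimensional ℂ V]
    [Nontrivial V] (Γ : Subgroup (V ≃ᵃ[ℂ] V)) (hΓ : IsPrimitiveSymplectic Γ) :
    orderH1 Γ ≠ 0 ∧
    (∀ L : LineBundle Γ, NefIsotropic L → (InducesFibration L ↔ ¬ IsTorsion L) ∧
      (IsTorsion L ↔ ∃! L', IsFlat L' ∧ Iso L L')) ∧
    (∀ L : LineBundle Γ, IsFlat L → NefIsotropic L ∧ IsTorsion L) ∧
    {L : LineBundle Γ | IsFlat L ∧ ¬ L.IsTrivial ∧ ¬ InducesFibration L}.ncard + 1 = orderH1 Γ ∧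
    ((∀ L : LineBundle Γ, NefIsotropic L → ¬ L.IsTrivial → InducesFibration L) ↔ orderH1 Γ = 1) ∧
    (Module.finrank ℂ V = 2 → orderH1 Γ = 1) ∧
    (∀ γ : Γ, (∀ x : V, γ.1.linear x = x → x = 0) →
      orderH1 Γ ∣ Nat.card (Abelianization (TQ.Lin Γ))) := main hΓ

end Pool.Agent.Results.MP_63735c_ag.TorusQuotientsDecided
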